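import Mathlib
import Pool.Agent.Helper26.AF.Goals
import Pool.Agent.Helper26.AF.Base

/-!
Project AF (helper26), packet ISG: the Ising identity for the binomial random graph.
-/

namespace Pool.Agent.Helper73.AF

open Finset Pool.Agent.Helper26.AF

set_option linter.unusedSectionVars false

variable {V : Type} [Fintype V] [DecidableEq V]

/-- `A` is a union of components of `G`. -/
def Clo (G : SimpleGraph V) (A : Finset V) : Prop := ∀ a b, G.Adj a b → (a ∈ A ↔ b ∈ A)

lemma Clo.reach {G : SimpleGraph V} {A : Finset V} (h : Clo G A) {a b : V} (hab : G.Reachable a b) :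
    a ∈ A ↔ b ∈ A := by
  obtain ⟨w⟩ := hab
  induction w with
  | nil => exact Iff.rfl
  | cons hadj _ ih => exact (h _ _ hadj).trans ih

/-- Unions of components are the same as sets of components. -/
noncomputable def cloEquiv (G : SimpleGraph V) :
    {A : Finset V // Clo G A} ≃ Set G.ConnectedComponent where
  toFun A := {c | ∃ v ∈ A.1, G.connectedComponentMk v = c}
  invFun S := by
    classical
    exact ⟨univ.filter (fun v => G.connectedComponentMk v ∈ S), by
      intro a b hab
      simp only [mem_filter, mem_univ, true_and]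
      rw [SimpleGraph.ConnectedComponent.sound hab.reachable]⟩
  left_inv A := by
    classical
    apply Subtype.ext
    ext v
    simp only [mem_filter, mem_univ, true_and, Set.mem_ofPred_eq]
    constructor
    · rintro ⟨w, hw, hwv⟩
      exact (A.2.reach (SimpleGraph.ConnectedComponent.exact hwv)).1 hw
    · intro hv
      exact ⟨v, hv, rfl⟩
  right_inv S := by
    classical
    ext c
    simp only [mem_filter, mem_univ, true_and, Set.mem_ofPred_eq]
    constructor
    · rintro ⟨v, hv, rfl⟩
      exact hv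
    · intro hc
      induction c using SimpleGraph.ConnectedComponent.ind with
      | _ v => exact ⟨v, hc, rfl⟩

open Classical in
lemma sum_clo (G : SimpleGraph V) :
    (∑ A : Finset V, if Clo G A then (1 : ℝ) else 0) = 2 ^ Nat.card G.ConnectedComponent := by
  rw [Finset.sum_boole]
  have h1 : #(univ.filter (fun A : Finset V => Clo G A)) = 2 ^ Nat.card G.ConnectedComponent := by
    rw [← Fintype.card_subtype, ← Nat.card_eq_fintype_card, Nat.card_congr (cloEquiv G)]
    rw [Nat.card_eq_fintype_card, Nat.card_eq_fintype_card, Fintype.card_set]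
  rw [h1]
  push_cast
  rfl

/-- The crossing pairs. -/
noncomputable def CR (A : Finset V) : Finset (Sym2 V) :=
  (A ×ˢ Aᶜ).image (fun x => s(x.1, x.2))

lemma mem_CR {A : Finset V} {e : Sym2 V} : e ∈ CR A ↔ ∃ a ∈ A, ∃ b, b ∉ A ∧ e = s(a, b) := by
  simp only [CR, mem_image, mem_product, mem_compl, Prod.exists]
  constructor
  · rintro ⟨a, b, ⟨ha, hb⟩, rfl⟩
    exact ⟨a, ha, b, hb, rfl⟩
  · rintro ⟨a, ha, b, hb, rfl⟩
    exact ⟨a, b, ⟨ha, hb⟩, rfl⟩

lemma CR_subset (A : Finset V) : CR A ⊆ EV V := by
  intro e he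
  obtain ⟨a, ha, b, hb, rfl⟩ := mem_CR.1 he
  rw [mem_EV, Sym2.mk_isDiag_iff]
  rintro rfl
  exact hb ha

lemma card_CR (A : Finset V) : #(CR A) = #A * (Fintype.card V - #A) := by
  rw [CR, Finset.card_image_of_injOn, Finset.card_product, Finset.card_compl]
  rintro ⟨a, b⟩ hab ⟨c, d⟩ hcd h
  simp only [coe_product, Set.mem_prod, mem_coe, mem_compl] at hab hcd
  simp only [Sym2.eq_iff] at h
  rcases h with ⟨rfl, rfl⟩ | ⟨rfl, rfl⟩
  · rfl
  · exact absurd hab.1 hcd.2

lemma clo_iff {A : Finset V} {T : Finset (Sym2 V)} (hT : T ⊆ EV V) :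
    Clo (SimpleGraph.fromEdgeSet (T : Set (Sym2 V))) A ↔ T ⊆ EV V \ CR A := by
  constructor
  · intro h e he
    rw [mem_sdiff]
    refine ⟨hT he, fun hc => ?_⟩
    obtain ⟨a, ha, b, hb, rfl⟩ := mem_CR.1 hc
    refine hb ((h a b ?_).1 ha)
    rw [SimpleGraph.fromEdgeSet_adj]
    refine ⟨he, ?_⟩
    rintro rfl
    exact hb ha
  · intro h a b hab
    rw [SimpleGraph.fromEdgeSet_adj] at hab
    have h1 := (mem_sdiff.1 (h (mem_coe.1 hab.1))).2
    rw [mem_CR] at h1
    constructor
    · intro ha
      by_contra hb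
      exact h1 ⟨a, ha, b, hb, rfl⟩
    · intro hb
      by_contra ha
      exact h1 ⟨b, hb, a, ha, Sym2.eq_swap⟩

open Classical in
lemma EE_clo (p : ℝ) (A : Finset V) :
    EE (V := V) p (fun G => if Clo G A then (2 : ℝ) ^ ne G else 0)
      = (1 - p) ^ (#A * (Fintype.card V - #A)) *
        (1 + p) ^ ((Fintype.card V).choose 2 - #A * (Fintype.card V - #A)) := by
  rw [EE_eq]
  have hM : #(EV V \ CR A) = (Fintype.card V).choose 2 - #A * (Fintype.card V - #A) := by
    rw [card_sdiff_of_subset (CR_subset A), card_EV, card_CR]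
  have hC : #(CR A) + #(EV V \ CR A) = (Fintype.card V).choose 2 := by
    rw [← card_EV, add_comm]
    exact card_sdiff_add_card_eq_card (CR_subset A)
  have hsub : (EV V \ CR A).powerset ⊆ (EV V).powerset := powerset_mono.2 sdiff_subset
  rw [← Finset.sum_subset hsub]
  · have h2 := Finset.sum_pow_mul_eq_add_pow (2 * p) (1 - p) (EV V \ CR A)
    rw [← hM, ← card_CR]
    have h3 : (1 : ℝ) + p = 2 * p + (1 - p) := by ring
    rw [h3, ← h2, Finset.mul_sum]
    refine Finset.sum_congr rfl fun T hT => ?_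
    rw [mem_powerset] at hT
    have hT' : T ⊆ EV V := hT.trans sdiff_subset
    rw [if_pos ((clo_iff hT').2 hT), ne_fromEdgeSet hT']
    have hle : #T ≤ #(EV V \ CR A) := card_le_card hT
    have h4 : (Fintype.card V).choose 2 - #T = #(CR A) + (#(EV V \ CR A) - #T) := by omega
    rw [h4, pow_add, mul_pow]
    ring
  · intro T hT hT2
    rw [mem_powerset] at hT hT2
    rw [if_neg (fun h => hT2 ((clo_iff hT).1 h)), mul_zero]

theorem goalISG (_hCYL : StmtCYL) : StmtISG := by
  classical
  intro V _ _ p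
  have h1 : (fun G : SimpleGraph V => (2 : ℝ) ^ (ne G + Nat.card G.ConnectedComponent))
      = fun G => ∑ A ∈ (univ : Finset (Finset V)), (if Clo G A then (2 : ℝ) ^ ne G else 0) := by
    funext G
    rw [pow_add, ← sum_clo G, Finset.mul_sum]
    refine Finset.sum_congr rfl fun A _ => ?_
    by_cases h : Clo G A
    · rw [if_pos h, if_pos h, mul_one]
    · rw [if_neg h, if_neg h, mul_zero]
  rw [h1, EE_sum]
  refine Finset.sum_congr rfl fun A _ => ?_
  exact EE_clo p A

end Pool.Agent.Helper73.AF
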